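import Mathlib

set_option autoImplicit false

/-! Hadamard's inequality. -/

namespace Q121.DetLB

open Matrix Finset

/-- Hadamard's inequality. -/
theorem hadamard_ineq {d : ℕ} (M : Matrix (Fin d) (Fin d) ℝ) :
    M.det ^ 2 ≤ ∏ i, (M i ⬝ᵥ M i) := by
  let E := EuclideanSpace ℝ (Fin d)
  have : Fact (Module.finrank ℝ E = d) := ⟨by simp [E]⟩
  let b := EuclideanSpace.basisFun (Fin d) ℝ
  let o : Orientation ℝ E (Fin d) := b.toBasis.orientation
  let v : Fin d → E := fun i => WithLp.toLp 2 (M i)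
  have h1 := o.abs_volumeForm_apply_le v
  rw [o.volumeForm_robust' b v] at h1
  have h2 : b.toBasis.det v = M.det := by
    rw [Module.Basis.det_apply, ← Matrix.det_transpose]
    congr 1
  rw [h2] at h1
  have h3 : ∀ i, ‖v i‖ ^ 2 = M i ⬝ᵥ M i := by
    intro i
    rw [EuclideanSpace.norm_sq_eq]
    simp [v, dotProduct, sq]
  calc M.det ^ 2 = |M.det| ^ 2 := (sq_abs _).symm
    _ ≤ (∏ i, ‖v i‖) ^ 2 := by gcongr
    _ = ∏ i, ‖v i‖ ^ 2 := (Finset.prod_pow _ _ _).symm
    _ = _ := by simp_rw [h3]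

open scoped MatrixOrder in
/-- A real positive semidefinite matrix is a Gram matrix. -/
lemma exists_gram {ι : Type*} [Fintype ι] [DecidableEq ι] (S : Matrix ι ι ℝ) (hS : S.PosSemidef) :
    ∃ G : Matrix ι ι ℝ, S = Gᵀ * G := by
  obtain ⟨G, hG⟩ := CStarAlgebra.nonneg_iff_eq_star_mul_self.mp hS.nonneg
  exact ⟨G, by rw [hG, Matrix.star_eq_conjTranspose, Matrix.conjTranspose_eq_transpose_of_trivial]⟩

/-- Hadamard's inequality for positive semidefinite matrices. -/
lemma hadamard_psd {d : ℕ} (S : Matrix (Fin d) (Fin d) ℝ) (hS : S.PosSemidef) :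
    S.det ≤ ∏ i, S i i := by
  obtain ⟨G, hG⟩ := exists_gram S hS
  have h1 := hadamard_ineq Gᵀ
  rw [Matrix.det_transpose] at h1
  rw [hG, Matrix.det_mul, Matrix.det_transpose, ← sq]
  refine h1.trans (le_of_eq ?_)
  refine prod_congr rfl (fun i _ => ?_)
  simp [Matrix.mul_apply, dotProduct]

end Q121.DetLB
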