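import Pool.Agent.H801R3.SB.CB
import Pool.Agent.Q121.DetLB.Hadamard

set_option autoImplicit false

/-! The determinant bound. -/

namespace Q121.DetLB

open Matrix Finset

/-- Gram-Hadamard inequality for minors of a positive semidefinite matrix. -/
lemma minor_sq_le {k : ℕ} {ι : Type*} [Fintype ι] [DecidableEq ι] (S : Matrix ι ι ℝ)
    (hS : S.PosSemidef) (a c : Fin k → ι) :
    (S.submatrix a c).det ^ 2 ≤ (∏ p, S (a p) (a p)) * ∏ p, S (c p) (c p) := by
  obtain ⟨G, hG⟩ := exists_gram S hS
  have hf : (0 : ℝ) < (k.factorial : ℝ)⁻¹ := by positivity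
  have h1 : ∀ a c : Fin k → ι, (S.submatrix a c).det = (k.factorial : ℝ)⁻¹ *
      ∑ l : Fin k → ι, ((G.submatrix l a).det * (G.submatrix l c).det) := by
    intro a c
    have h2 : S.submatrix a c = (Gᵀ.submatrix a id) * (G.submatrix id c) := by
      rw [hG]
      ext i j
      simp [Matrix.mul_apply]
    rw [h2, Pool.Agent.H801R3.SB.cauchyBinet]
    congr 1
    refine sum_congr rfl (fun l _ => ?_)
    rw [← Matrix.det_transpose (G.submatrix l a)]
    rfl
  have h3 : ∀ a : Fin k → ι, (S.submatrix a a).det ≤ ∏ p, S (a p) (a p) := by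
    intro a
    exact hadamard_psd (S.submatrix a a) (hS.submatrix a)
  have h4 : ∀ a : Fin k → ι, (S.submatrix a a).det = (k.factorial : ℝ)⁻¹ *
      ∑ l : Fin k → ι, (G.submatrix l a).det ^ 2 := by
    intro a
    rw [h1]
    simp only [sq]
  calc (S.submatrix a c).det ^ 2
      = ((k.factorial : ℝ)⁻¹) ^ 2 *
        (∑ l : Fin k → ι, ((G.submatrix l a).det * (G.submatrix l c).det)) ^ 2 := by
        rw [h1, mul_pow]
    _ ≤ ((k.factorial : ℝ)⁻¹) ^ 2 * ((∑ l : Fin k → ι, (G.submatrix l a).det ^ 2) *
          ∑ l : Fin k → ι, (G.submatrix l c).det ^ 2) := by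
        gcongr
        exact sum_mul_sq_le_sq_mul_sq _ _ _
    _ = (S.submatrix a a).det * (S.submatrix c c).det := by
        rw [h4, h4]; ring
    _ ≤ (∏ p, S (a p) (a p)) * ∏ p, S (c p) (c p) := by
        have h5 : 0 ≤ (S.submatrix c c).det := (hS.submatrix c).det_nonneg
        have h6 : 0 ≤ ∏ p, S (a p) (a p) := prod_nonneg (fun p _ => hS.diag_nonneg)
        exact mul_le_mul (h3 a) (h3 c) h5 h6

/-- The determinant bound. -/
theorem det_bound {k : ℕ} {ι : Type*} [Fintype ι] [DecidableEq ι] (Z : Matrix (Fin k) ι ℝ)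
    (S : Matrix ι ι ℝ) (hS : S.PosSemidef) (ζ : ι → ℝ) (hζ : ∀ l, 0 ≤ ζ l)
    (hZ : ∀ a : Fin k → ι, |(Z.submatrix id a).det| ≤ ∏ p, ζ (a p)) :
    (Z * S * Zᵀ).det ≤ ((∑ l, ζ l * √(S l l)) ^ k / k.factorial) ^ 2 := by
  have hd : ∀ l, 0 ≤ S l l := fun l => hS.diag_nonneg
  have h1 : (Z * S * Zᵀ).det = (k.factorial : ℝ)⁻¹ * ∑ a : Fin k → ι,
      (Z.submatrix id a).det * ((k.factorial : ℝ)⁻¹ * ∑ c : Fin k → ι,
        (S.submatrix a c).det * (Z.submatrix id c).det) := by
    rw [Matrix.mul_assoc, Pool.Agent.H801R3.SB.cauchyBinet]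
    congr 1
    refine sum_congr rfl (fun a _ => ?_)
    congr 1
    have h2 : (S * Zᵀ).submatrix a id = (S.submatrix a id) * Zᵀ := by
      ext i j
      simp [Matrix.mul_apply]
    rw [h2, Pool.Agent.H801R3.SB.cauchyBinet]
    congr 1
    refine sum_congr rfl (fun c _ => ?_)
    rw [← Matrix.det_transpose (Z.submatrix id c)]
    rfl
  set w : (Fin k → ι) → ℝ := fun a => ∏ p, (ζ (a p) * √(S (a p) (a p))) with hw
  have hw0 : ∀ a, 0 ≤ w a := fun a => prod_nonneg (fun p _ => mul_nonneg (hζ _) (Real.sqrt_nonneg _))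
  have hminor : ∀ a c : Fin k → ι, |(S.submatrix a c).det| ≤
      (∏ p, √(S (a p) (a p))) * ∏ p, √(S (c p) (c p)) := by
    intro a c
    apply abs_le_of_sq_le_sq _ (by positivity)
    rw [mul_pow, ← prod_pow, ← prod_pow]
    simp only [Real.sq_sqrt (hd _)]
    exact minor_sq_le S hS a c
  have hterm : ∀ a c : Fin k → ι, (Z.submatrix id a).det * ((S.submatrix a c).det *
      (Z.submatrix id c).det) ≤ w a * w c := by
    intro a c
    refine (le_abs_self _).trans ?_
    rw [abs_mul, abs_mul]
    calc |(Z.submatrix id a).det| * (|(S.submatrix a c).det| * |(Z.submatrix id c).det|)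
        ≤ (∏ p, ζ (a p)) * (((∏ p, √(S (a p) (a p))) * ∏ p, √(S (c p) (c p))) *
            ∏ p, ζ (c p)) := by
          apply mul_le_mul (hZ a) _ (by positivity) (prod_nonneg (fun p _ => hζ _))
          exact mul_le_mul (hminor a c) (hZ c) (abs_nonneg _) (by positivity)
      _ = w a * w c := by
          simp only [hw, prod_mul_distrib]
          ring
  have hsum : ∑ a : Fin k → ι, w a = (∑ l, ζ l * √(S l l)) ^ k := by
    rw [hw]
    have := Finset.prod_univ_sum (fun (_ : Fin k) => (univ : Finset ι))
      (fun _ l => ζ l * √(S l l))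
    rw [Fintype.piFinset_univ] at this
    rw [← this, prod_const, card_univ, Fintype.card_fin]
  have hf : (0 : ℝ) < (k.factorial : ℝ)⁻¹ := by positivity
  rw [h1]
  calc (k.factorial : ℝ)⁻¹ * ∑ a : Fin k → ι,
      (Z.submatrix id a).det * ((k.factorial : ℝ)⁻¹ * ∑ c : Fin k → ι,
        (S.submatrix a c).det * (Z.submatrix id c).det)
      = ((k.factorial : ℝ)⁻¹) ^ 2 * ∑ a : Fin k → ι, ∑ c : Fin k → ι,
        (Z.submatrix id a).det * ((S.submatrix a c).det * (Z.submatrix id c).det) := by
        rw [sq, mul_assoc, mul_sum (s := univ) (f := fun a => ∑ c : Fin k → ι,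
          (Z.submatrix id a).det * ((S.submatrix a c).det * (Z.submatrix id c).det))]
        congr 1
        refine sum_congr rfl (fun a _ => ?_)
        rw [← mul_sum]
        ring
    _ ≤ ((k.factorial : ℝ)⁻¹) ^ 2 * ∑ a : Fin k → ι, ∑ c : Fin k → ι, w a * w c := by
        exact mul_le_mul_of_nonneg_left
          (sum_le_sum fun a _ => sum_le_sum fun c _ => hterm a c) (by positivity)
    _ = ((∑ l, ζ l * √(S l l)) ^ k / k.factorial) ^ 2 := by
        rw [← hsum, ← sum_mul_sum]
        field_simp

/-- The minors of the matrix `[1, B]`. -/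
lemma minors_one_B {k : ℕ} (B : Matrix (Fin k) (Fin k) ℝ) (D : ℝ)
    (hB : ∀ (m : ℕ) (f g : Fin m → Fin k), |(B.submatrix f g).det| ≤ D ^ m) (hD : 0 ≤ D) :
    ∀ (m : ℕ) (f : Fin m → Fin k) (c : Fin m → Fin k ⊕ Fin k),
      |((Matrix.fromCols 1 B).submatrix f c).det| ≤
        ∏ p, Sum.elim (fun _ => 1) (fun _ => D) (c p) := by
  intro m
  induction m with
  | zero => intro f c; simp
  | succ m ih =>
    intro f c
    by_cases hc : ∃ p i, c p = Sum.inl i
    · obtain ⟨p, i, hp⟩ := hc
      have hprod : ∏ q, Sum.elim (fun _ => (1 : ℝ)) (fun _ => D) (c q) =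
          ∏ q : Fin m, Sum.elim (fun _ => (1 : ℝ)) (fun _ => D) (c (p.succAbove q)) := by
        rw [Fin.prod_univ_succAbove _ p, hp]
        simp
      have hnn : 0 ≤ ∏ q : Fin m, Sum.elim (fun _ => (1 : ℝ)) (fun _ => D)
          (c (p.succAbove q)) := by
        apply prod_nonneg
        intro q _
        cases c (p.succAbove q) with
        | inl _ => simp
        | inr _ => simpa using hD
      by_cases hf : Function.Injective f
      · rw [Matrix.det_succ_column _ p, hprod]
        refine (abs_sum_le_sum_abs _ _).trans ?_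
        have hle : ∀ q ∈ (univ : Finset (Fin (m + 1))),
            |(-1) ^ ((q : ℕ) + (p : ℕ)) * ((Matrix.fromCols 1 B).submatrix f c) q p *
              (((Matrix.fromCols 1 B).submatrix f c).submatrix q.succAbove p.succAbove).det| ≤
            (if f q = i then (1 : ℝ) else 0) *
              ∏ q : Fin m, Sum.elim (fun _ => (1 : ℝ)) (fun _ => D) (c (p.succAbove q)) := by
          intro q _
          rw [abs_mul, abs_mul, abs_pow, abs_neg, abs_one, one_pow, one_mul]
          have h1 : |((Matrix.fromCols 1 B).submatrix f c) q p| =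
              if f q = i then (1 : ℝ) else 0 := by
            rw [Matrix.submatrix_apply, hp, Matrix.fromCols_apply_inl, Matrix.one_apply]
            split_ifs <;> simp
          rw [h1]
          apply mul_le_mul_of_nonneg_left
          · rw [Matrix.submatrix_submatrix]
            exact ih (f ∘ q.succAbove) (c ∘ p.succAbove)
          · split_ifs <;> norm_num
        refine (sum_le_sum hle).trans ?_
        rw [← sum_mul]
        have hone : ∑ q : Fin (m + 1), (if f q = i then (1 : ℝ) else 0) ≤ 1 := by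
          rw [sum_boole]
          have : #{q : Fin (m + 1) | f q = i} ≤ 1 := by
            rw [card_le_one]
            intro a ha b hb
            rw [mem_filter] at ha hb
            exact hf (ha.2.trans hb.2.symm)
          exact_mod_cast this
        calc _ ≤ 1 * ∏ q : Fin m, Sum.elim (fun _ => (1 : ℝ)) (fun _ => D)
              (c (p.succAbove q)) := mul_le_mul_of_nonneg_right hone hnn
          _ = _ := one_mul _
      · unfold Function.Injective at hf
        push Not at hf
        obtain ⟨q, q', h1, h2⟩ := hf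
        rw [Matrix.det_zero_of_row_eq h2, abs_zero, hprod]
        · exact hnn
        · funext x
          simp [h1]
    · push Not at hc
      have hg : ∀ p, ∃ j, c p = Sum.inr j := by
        intro p
        cases h : c p with
        | inl i => exact absurd h (hc p i)
        | inr j => exact ⟨j, rfl⟩
      choose g hg using hg
      have h1 : (Matrix.fromCols 1 B).submatrix f c = B.submatrix f g := by
        ext i j
        simp [hg]
      rw [h1]
      refine (hB (m + 1) f g).trans (le_of_eq ?_)
      simp [hg]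

end Q121.DetLB
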