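import Pool.Agent.Q121.DetLB.Cube

set_option autoImplicit false

/-! Every point of the cube is close to an integer point, in the norm defined by `N`. -/

namespace Q121.DetLB

open Matrix Finset

/-- The function to be minimised. -/
def G {k : ℕ} (N : Matrix (Fin k) (Fin k) ℝ) (z y : Fin k → ℝ) : ℝ :=
  qf N (y - z) + ∑ j, y j * (1 - y j)

lemma G_second {k : ℕ} {N : Matrix (Fin k) (Fin k) ℝ} (hN : N.PosSemidef) (z y v : Fin k → ℝ)
    (ε : ℝ) : G N z (y + ε • v) + G N z (y - ε • v) =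
      2 * G N z y + 2 * ε ^ 2 * (qf N v - ∑ j, v j ^ 2) := by
  unfold G
  have e1 : y + ε • v - z = (y - z) + ε • v := by abel
  have e2 : y - ε • v - z = (y - z) + (-ε) • v := by rw [neg_smul]; abel
  rw [e1, e2, qf_add hN, qf_add hN, qf_smul, qf_smul, Matrix.mulVec_smul, Matrix.mulVec_smul,
    dotProduct_smul, dotProduct_smul]
  have e3 : ∑ j, (y + ε • v) j * (1 - (y + ε • v) j) + ∑ j, (y - ε • v) j * (1 - (y - ε • v) j) =
      2 * ∑ j, y j * (1 - y j) - 2 * ε ^ 2 * ∑ j, v j ^ 2 := by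
    rw [← sum_add_distrib, mul_sum, mul_sum, ← sum_sub_distrib]
    refine sum_congr rfl (fun j _ => ?_)
    simp only [Pi.add_apply, Pi.sub_apply, Pi.smul_apply, smul_eq_mul]
    ring
  simp only [smul_eq_mul]
  linarith

lemma G_cont {k : ℕ} (N : Matrix (Fin k) (Fin k) ℝ) (z : Fin k → ℝ) : Continuous (G N z) := by
  unfold G qf
  have h1 : Continuous (fun y : Fin k → ℝ => (y - z) ⬝ᵥ (N *ᵥ (y - z))) := by
    simp only [dotProduct, Matrix.mulVec]
    fun_prop
  have h2 : Continuous (fun y : Fin k → ℝ => ∑ j, y j * (1 - y j)) := by fun_prop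
  exact h1.add h2

/-- Existence of a small step. -/
lemma exists_step {k : ℕ} (y v : Fin k → ℝ) (hy : ∀ j, 0 ≤ y j ∧ y j ≤ 1)
    (hv : ∀ j, ¬ (0 < y j ∧ y j < 1) → v j = 0) :
    ∃ ε : ℝ, 0 < ε ∧ (∀ j, 0 ≤ (y + ε • v) j ∧ (y + ε • v) j ≤ 1) ∧
      (∀ j, 0 ≤ (y - ε • v) j ∧ (y - ε • v) j ≤ 1) := by
  have h : ∀ j, ∀ᶠ ε : ℝ in nhdsWithin 0 (Set.Ioi 0),
      (0 ≤ (y + ε • v) j ∧ (y + ε • v) j ≤ 1) ∧ (0 ≤ (y - ε • v) j ∧ (y - ε • v) j ≤ 1) := by
    intro j
    by_cases hj : 0 < y j ∧ y j < 1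
    · have c1 : Filter.Tendsto (fun ε : ℝ => (y + ε • v) j) (nhds 0) (nhds (y j)) := by
        have : Continuous (fun ε : ℝ => (y + ε • v) j) := by
          simp only [Pi.add_apply, Pi.smul_apply, smul_eq_mul]
          fun_prop
        have h2 := this.tendsto 0
        simpa using h2
      have c2 : Filter.Tendsto (fun ε : ℝ => (y - ε • v) j) (nhds 0) (nhds (y j)) := by
        have : Continuous (fun ε : ℝ => (y - ε • v) j) := by
          simp only [Pi.sub_apply, Pi.smul_apply, smul_eq_mul]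
          fun_prop
        have h2 := this.tendsto 0
        simpa using h2
      apply Filter.Eventually.filter_mono nhdsWithin_le_nhds
      filter_upwards [c1.eventually (lt_mem_nhds hj.1), c1.eventually (gt_mem_nhds hj.2),
        c2.eventually (lt_mem_nhds hj.1), c2.eventually (gt_mem_nhds hj.2)] with ε a1 a2 a3 a4
      exact ⟨⟨a1.le, a2.le⟩, ⟨a3.le, a4.le⟩⟩
    · apply Filter.Eventually.of_forall
      intro ε
      simp only [Pi.add_apply, Pi.sub_apply, Pi.smul_apply, hv j hj, smul_zero, add_zero, sub_zero]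
      exact ⟨hy j, hy j⟩
  have h2 := (Filter.eventually_all.2 h).and
    (self_mem_nhdsWithin : Set.Ioi (0 : ℝ) ∈ nhdsWithin 0 (Set.Ioi 0))
  obtain ⟨ε, h3, h4⟩ := h2.exists
  exact ⟨ε, h4, fun j => (h3 j).1, fun j => (h3 j).2⟩

/-- Every point of the cube is close to an integer point. -/
theorem close {k : ℕ} {N : Matrix (Fin k) (Fin k) ℝ} (hN : N.PosSemidef) (τ : ℝ) (hτ : 0 < τ)
    (hdiag : ∀ j, N j j ≤ τ)
    (hX : ∀ S : Finset (Fin k), ∃ (d : ℕ) (v : Fin k → EuclideanSpace ℝ (Fin d)),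
      (∀ j, j ∉ S → v j = 0) ∧ (#S : ℝ) / 2 ≤ ∑ j, ‖v j‖ ^ 2 ∧
      ∑ c, qf N (fun j => v j c) ≤ k / τ)
    (z : Fin k → ℝ) (hz : ∀ j, 0 ≤ z j ∧ z j ≤ 1) :
    ∃ x : Fin k → ℤ, qf N ((fun j => (x j : ℝ)) - z) ≤ 3 / 2 * k := by
  classical
  obtain ⟨y, hy, hmin⟩ := (isCompact_Icc (a := (0 : Fin k → ℝ)) (b := 1)).exists_isMinOn
    ⟨0, by simp⟩ (G_cont N z).continuousOn
  have hy' : ∀ j, 0 ≤ y j ∧ y j ≤ 1 := fun j => ⟨hy.1 j, hy.2 j⟩
  set S : Finset (Fin k) := univ.filter (fun j => 0 < y j ∧ y j < 1) with hS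
  have hsecond : ∀ v : Fin k → ℝ, (∀ j, j ∉ S → v j = 0) → ∑ j, v j ^ 2 ≤ qf N v := by
    intro v hv
    obtain ⟨ε, hε, h1, h2⟩ := exists_step y v hy' (fun j hj => hv j (by simpa [hS] using hj))
    have h3 := hmin (show y + ε • v ∈ Set.Icc 0 1 from ⟨fun j => (h1 j).1, fun j => (h1 j).2⟩)
    have h4 := hmin (show y - ε • v ∈ Set.Icc 0 1 from ⟨fun j => (h2 j).1, fun j => (h2 j).2⟩)
    simp only [Set.mem_ofPred_eq] at h3 h4
    have h5 := G_second hN z y v ε
    have h6 : 0 ≤ ε ^ 2 * (qf N v - ∑ j, v j ^ 2) := by linarith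
    have h7 : 0 < ε ^ 2 := by positivity
    have := nonneg_of_mul_nonneg_right h6 h7
    linarith
  have hcard : (#S : ℝ) / 2 ≤ k / τ := by
    obtain ⟨d, v, v1, v2, v3⟩ := hX S
    refine v2.trans (le_trans ?_ v3)
    have h1 : ∀ c : Fin d, ∑ j, (v j c) ^ 2 ≤ qf N (fun j => v j c) := by
      intro c
      apply hsecond
      intro j hj
      rw [v1 j hj]
      simp
    calc ∑ j, ‖v j‖ ^ 2 = ∑ j, ∑ c, (v j c) ^ 2 := by
          refine sum_congr rfl (fun j _ => ?_)
          rw [EuclideanSpace.norm_sq_eq]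
          simp
      _ = ∑ c, ∑ j, (v j c) ^ 2 := sum_comm
      _ ≤ ∑ c, qf N (fun j => v j c) := sum_le_sum (fun c _ => h1 c)
  -- first part of the distance
  have hG : G N z y ≤ G N z z := hmin (show z ∈ Set.Icc 0 1 from
    ⟨fun j => (hz j).1, fun j => (hz j).2⟩)
  have hyz : qf N (y - z) ≤ k / 4 := by
    unfold G at hG
    have h1 : qf N (z - z) = 0 := by rw [sub_self]; simp [qf]
    have h2 : 0 ≤ ∑ j, y j * (1 - y j) := by
      apply sum_nonneg
      intro j _
      have := hy' j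
      nlinarith
    have h3 : ∑ j, z j * (1 - z j) ≤ k / 4 := by
      calc ∑ j, z j * (1 - z j) ≤ ∑ _j : Fin k, (1 / 4 : ℝ) := by
            apply sum_le_sum
            intro j _
            nlinarith [sq_nonneg (z j - 1 / 2)]
        _ = k / 4 := by simp; ring
    linarith
  obtain ⟨x, hx⟩ := rounding hN y hy'
  have hround : ∑ j, N j j * (y j * (1 - y j)) ≤ k / 2 := by
    calc ∑ j, N j j * (y j * (1 - y j)) ≤ ∑ j, (if j ∈ S then τ / 4 else 0) := by
          apply sum_le_sum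
          intro j _
          have hj := hy' j
          split_ifs with h
          · have h1 : y j * (1 - y j) ≤ 1 / 4 := by nlinarith [sq_nonneg (y j - 1 / 2)]
            have h2 : 0 ≤ y j * (1 - y j) := mul_nonneg hj.1 (by linarith)
            have h3 : 0 ≤ N j j := hN.diag_nonneg
            calc N j j * (y j * (1 - y j)) ≤ τ * (1 / 4) :=
                  mul_le_mul (hdiag j) h1 h2 hτ.le
              _ = τ / 4 := by ring
          · have h1 : y j * (1 - y j) = 0 := by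
              have h2 : ¬ (0 < y j ∧ y j < 1) := by simpa [hS] using h
              rcases hj.1.eq_or_lt with h3 | h3
              · rw [← h3]; ring
              · rcases hj.2.eq_or_lt with h4 | h4
                · rw [h4]; ring
                · exact absurd ⟨h3, h4⟩ h2
            rw [h1, mul_zero]
      _ = #S * (τ / 4) := by
          rw [sum_ite_mem, univ_inter, sum_const, nsmul_eq_mul]
      _ ≤ k / 2 := by
          have h1 : (#S : ℝ) ≤ 2 * (k / τ) := by linarith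
          calc (#S : ℝ) * (τ / 4) ≤ (2 * (k / τ)) * (τ / 4) := by gcongr
            _ = k / 2 := by field_simp; ring
  refine ⟨x, ?_⟩
  have hsum : (fun j => (x j : ℝ)) - z = ((fun j => (x j : ℝ)) - y) + (y - z) := by abel
  rw [hsum]
  have := qf_add_le hN ((fun j => (x j : ℝ)) - y) (y - z)
  linarith

end Q121.DetLB
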