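import Mathlib

set_option autoImplicit false

/-! Every point of the cube is close to an integer point, in the norm defined by `N`. -/

namespace Q121.DetLB

open Matrix Finset

/-- The quadratic form. -/
def qf {k : ℕ} (N : Matrix (Fin k) (Fin k) ℝ) (u : Fin k → ℝ) : ℝ := u ⬝ᵥ (N *ᵥ u)

lemma qf_nonneg {k : ℕ} {N : Matrix (Fin k) (Fin k) ℝ} (hN : N.PosSemidef) (u : Fin k → ℝ) :
    0 ≤ qf N u := by
  have := hN.dotProduct_mulVec_nonneg u
  simpa [qf] using this

/-- Expansion of the quadratic form. -/
lemma qf_add {k : ℕ} {N : Matrix (Fin k) (Fin k) ℝ} (hN : N.PosSemidef) (u v : Fin k → ℝ) :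
    qf N (u + v) = qf N u + 2 * (u ⬝ᵥ (N *ᵥ v)) + qf N v := by
  have hsymm : v ⬝ᵥ (N *ᵥ u) = u ⬝ᵥ (N *ᵥ v) := by
    have hT : Nᵀ = N := by
      have := hN.1
      rwa [Matrix.IsHermitian, Matrix.conjTranspose_eq_transpose_of_trivial] at this
    rw [Matrix.dotProduct_mulVec, ← Matrix.mulVec_transpose, hT, dotProduct_comm]
  unfold qf
  rw [Matrix.mulVec_add, add_dotProduct, dotProduct_add, dotProduct_add, hsymm]
  ring

lemma qf_smul {k : ℕ} (N : Matrix (Fin k) (Fin k) ℝ) (c : ℝ) (u : Fin k → ℝ) :
    qf N (c • u) = c ^ 2 * qf N u := by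
  unfold qf
  rw [Matrix.mulVec_smul, smul_dotProduct, dotProduct_smul, smul_eq_mul, smul_eq_mul]
  ring

lemma qf_add_le {k : ℕ} {N : Matrix (Fin k) (Fin k) ℝ} (hN : N.PosSemidef) (u v : Fin k → ℝ) :
    qf N (u + v) ≤ 2 * qf N u + 2 * qf N v := by
  have h1 := qf_add hN u v
  have h2 := qf_add hN u (-v)
  have h3 := qf_nonneg hN (u + -v)
  have h4 : qf N (-v) = qf N v := by
    have := qf_smul N (-1) v
    simpa using this
  have h5 : u ⬝ᵥ (N *ᵥ (-v)) = -(u ⬝ᵥ (N *ᵥ v)) := by
    rw [Matrix.mulVec_neg, dotProduct_neg]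
  rw [h4, h5] at h2
  linarith

/-- The quadratic form on a coordinate line. -/
lemma qf_line {k : ℕ} {N : Matrix (Fin k) (Fin k) ℝ} (hN : N.PosSemidef) (u : Fin k → ℝ)
    (j : Fin k) (t : ℝ) :
    qf N (u + t • Pi.single j 1) = qf N u + 2 * t * (u ⬝ᵥ (N *ᵥ (Pi.single j 1))) +
      t ^ 2 * N j j := by
  rw [qf_add hN, qf_smul, Matrix.mulVec_smul, dotProduct_smul]
  have : qf N (Pi.single j 1) = N j j := by
    simp [qf]
  rw [this, smul_eq_mul]
  ring

/-- The potential of the rounding. -/
def pot {k : ℕ} (N : Matrix (Fin k) (Fin k) ℝ) (y x : Fin k → ℝ) : ℝ :=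
  qf N (x - y) + ∑ j, N j j * (x j * (1 - x j))

lemma pot_affine {k : ℕ} {N : Matrix (Fin k) (Fin k) ℝ} (hN : N.PosSemidef) (y x : Fin k → ℝ)
    (j : Fin k) (t : ℝ) :
    pot N y (Function.update x j t) = (1 - t) * pot N y (Function.update x j 0) +
      t * pot N y (Function.update x j 1) := by
  have h1 : ∀ s : ℝ, Function.update x j s - y =
      (Function.update x j 0 - y) + s • Pi.single j 1 := by
    intro s
    funext i
    by_cases hi : i = j
    · subst hi; simp; ring
    · simp [hi]
  have h2 : ∀ s : ℝ, ∑ i, N i i * ((Function.update x j s) i * (1 - (Function.update x j s) i)) =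
      ∑ i, N i i * ((Function.update x j 0) i * (1 - (Function.update x j 0) i)) +
        N j j * (s * (1 - s)) := by
    intro s
    rw [← Finset.add_sum_erase univ _ (mem_univ j), ← Finset.add_sum_erase univ
      (fun i => N i i * ((Function.update x j 0) i * (1 - (Function.update x j 0) i))) (mem_univ j)]
    have h3 : ∑ i ∈ univ.erase j, N i i * ((Function.update x j s) i *
        (1 - (Function.update x j s) i)) = ∑ i ∈ univ.erase j, N i i *
        ((Function.update x j 0) i * (1 - (Function.update x j 0) i)) := by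
      refine sum_congr rfl (fun i hi => ?_)
      have hne := ne_of_mem_erase hi
      rw [Function.update_of_ne hne, Function.update_of_ne hne]
    rw [h3]
    simp
    ring
  unfold pot
  rw [h1 t, h1 1, h2 t, h2 1, qf_line hN, qf_line hN]
  ring

/-- Rounding. -/
lemma rounding {k : ℕ} {N : Matrix (Fin k) (Fin k) ℝ} (hN : N.PosSemidef) (y : Fin k → ℝ)
    (hy : ∀ j, 0 ≤ y j ∧ y j ≤ 1) :
    ∃ x : Fin k → ℤ, qf N ((fun j => (x j : ℝ)) - y) ≤ ∑ j, N j j * (y j * (1 - y j)) := by
  have key : ∀ s : Finset (Fin k), ∃ x : Fin k → ℝ, (∀ j ∈ s, x j = 0 ∨ x j = 1) ∧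
      (∀ j, j ∉ s → x j = y j) ∧ pot N y x ≤ pot N y y := by
    intro s
    induction s using Finset.induction_on with
    | empty => exact ⟨y, by simp, by simp, le_rfl⟩
    | insert j s hj ih =>
      obtain ⟨x, h1, h2, h3⟩ := ih
      have h4 := pot_affine hN y x j (x j)
      rw [Function.update_eq_self] at h4
      rw [h2 j hj] at h4
      have hyj := hy j
      have hor : pot N y (Function.update x j 0) ≤ pot N y x ∨
          pot N y (Function.update x j 1) ≤ pot N y x := by
        by_contra hcon
        push Not at hcon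
        obtain ⟨c1, c2⟩ := hcon
        rcases hyj.1.eq_or_lt with h0 | h0
        · rw [← h0] at h4; linarith
        · nlinarith [mul_nonneg (sub_nonneg.2 hyj.2) (sub_nonneg.2 c1.le), mul_pos h0 (sub_pos.2 c2)]
      rcases hor with h | h
      · refine ⟨Function.update x j 0, ?_, ?_, h.trans h3⟩
        · intro i hi
          by_cases hij : i = j
          · subst hij; left; simp
          · rw [Function.update_of_ne hij]
            exact h1 i ((mem_insert.1 hi).resolve_left hij)
        · intro i hi
          rw [mem_insert, not_or] at hi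
          rw [Function.update_of_ne hi.1]
          exact h2 i hi.2
      · refine ⟨Function.update x j 1, ?_, ?_, h.trans h3⟩
        · intro i hi
          by_cases hij : i = j
          · subst hij; right; simp
          · rw [Function.update_of_ne hij]
            exact h1 i ((mem_insert.1 hi).resolve_left hij)
        · intro i hi
          rw [mem_insert, not_or] at hi
          rw [Function.update_of_ne hi.1]
          exact h2 i hi.2
  obtain ⟨x, h1, _, h3⟩ := key univ
  have h4 : ∀ j, ∃ n : ℤ, (n : ℝ) = x j := by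
    intro j
    rcases h1 j (mem_univ j) with h | h
    · exact ⟨0, by rw [h]; simp⟩
    · exact ⟨1, by rw [h]; simp⟩
  choose n hn using h4
  refine ⟨n, ?_⟩
  have h5 : (fun j => (n j : ℝ)) = x := funext hn
  rw [h5]
  have h6 : pot N y x = qf N (x - y) := by
    unfold pot
    have : ∑ j, N j j * (x j * (1 - x j)) = 0 := by
      apply sum_eq_zero
      intro j _
      rcases h1 j (mem_univ j) with h | h <;> rw [h] <;> ring
    rw [this, add_zero]
  have h7 : pot N y y = ∑ j, N j j * (y j * (1 - y j)) := by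
    unfold pot
    rw [sub_self]
    simp [qf]
  rw [← h6, ← h7]
  exact h3

end Q121.DetLB
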