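import Pool.Agent.Q121.DetLB.Hadamard
import Pool.Agent.Q121.DetLB.Cube

set_option autoImplicit false

/-! A bound for the determinant by folding the Gaussian integral. -/

namespace Q121.DetLB

open Matrix Finset MeasureTheory

/-- The Gaussian integral of a quadratic form. -/
lemma gauss {k : ℕ} (N : Matrix (Fin k) (Fin k) ℝ) (hN : N.PosDef) :
    ∫⁻ z : Fin k → ℝ, ENNReal.ofReal (Real.exp (-qf N z)) =
      ENNReal.ofReal (√Real.pi ^ k / √N.det) := by
  obtain ⟨A, hA⟩ := exists_gram N hN.posSemidef
  have hdet : N.det = A.det ^ 2 := by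
    rw [hA, Matrix.det_mul, Matrix.det_transpose, sq]
  have hNpos : 0 < N.det := hN.det_pos
  have hA0 : A.det ≠ 0 := by
    intro h0
    rw [hdet, h0] at hNpos
    norm_num at hNpos
  have hq : ∀ z : Fin k → ℝ, qf N z = ∑ i, (toLin' A z) i ^ 2 := by
    intro z
    unfold qf
    rw [hA, ← Matrix.mulVec_mulVec, Matrix.dotProduct_mulVec, Matrix.vecMul_transpose]
    simp only [dotProduct, toLin'_apply, sq]
  have hint : Integrable (fun u : Fin k → ℝ => ∏ i, Real.exp (-(u i) ^ 2)) := by
    apply Integrable.fintype_prod (f := fun (_ : Fin k) (x : ℝ) => Real.exp (-x ^ 2))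
    intro i
    have := integrable_exp_neg_mul_sq (b := 1) one_pos
    simpa using this
  have hval : ∫ u : Fin k → ℝ, ∏ i, Real.exp (-(u i) ^ 2) = √Real.pi ^ k := by
    have h1 := integral_fintype_prod_volume_eq_pow (ι := Fin k) (fun x : ℝ => Real.exp (-x ^ 2))
    rw [h1, Fintype.card_fin]
    have h2 := integral_gaussian 1
    simp only [one_mul, neg_mul, div_one] at h2
    rw [h2]
  have hmeas : Measurable (fun u : Fin k → ℝ => ENNReal.ofReal (∏ i, Real.exp (-(u i) ^ 2))) := by
    fun_prop
  have hT : Measurable (toLin' A) := (LinearMap.continuous_of_finiteDimensional _).measurable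
  calc ∫⁻ z : Fin k → ℝ, ENNReal.ofReal (Real.exp (-qf N z))
      = ∫⁻ z : Fin k → ℝ, ENNReal.ofReal (∏ i, Real.exp (-((toLin' A z) i) ^ 2)) := by
        refine lintegral_congr (fun z => ?_)
        rw [hq, ← Real.exp_sum, sum_neg_distrib]
    _ = ∫⁻ u, ENNReal.ofReal (∏ i, Real.exp (-(u i) ^ 2)) ∂(Measure.map (toLin' A) volume) :=
        (lintegral_map hmeas hT).symm
    _ = ENNReal.ofReal |(A.det)⁻¹| * ∫⁻ u : Fin k → ℝ,
          ENNReal.ofReal (∏ i, Real.exp (-(u i) ^ 2)) := by
        rw [Real.map_matrix_volume_pi_eq_smul_volume_pi hA0, lintegral_smul_measure, smul_eq_mul]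
    _ = ENNReal.ofReal |(A.det)⁻¹| * ENNReal.ofReal (√Real.pi ^ k) := by
        rw [← ofReal_integral_eq_lintegral_ofReal hint
          (Filter.Eventually.of_forall (fun u => by positivity)), hval]
    _ = ENNReal.ofReal (√Real.pi ^ k / √N.det) := by
        rw [← ENNReal.ofReal_mul (abs_nonneg _)]
        congr 1
        rw [hdet, Real.sqrt_sq_eq_abs, abs_inv]
        ring

/-- The folding argument. -/
lemma fold {k : ℕ} (N : Matrix (Fin k) (Fin k) ℝ) (hN : N.PosDef) (R : ℝ)
    (h : ∀ z : Fin k → ℝ, (∀ j, 0 ≤ z j ∧ z j ≤ 1) →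
      ∃ x : Fin k → ℤ, qf N ((fun j => (x j : ℝ)) - z) ≤ R) :
    Real.exp (-R) ≤ √Real.pi ^ k / √N.det := by
  set f : (Fin k → ℝ) → ENNReal := fun z => ENNReal.ofReal (Real.exp (-qf N z)) with hf
  have hqc : Continuous (fun z : Fin k → ℝ => qf N z) := by
    unfold qf
    simp only [dotProduct, Matrix.mulVec]
    fun_prop
  have hfm : Measurable f := by
    have : Measurable (fun z : Fin k → ℝ => qf N z) := hqc.measurable
    fun_prop
  set b := Pi.basisFun ℝ (Fin k) with hb
  set L := (Submodule.span ℤ (Set.range b)).toAddSubgroup with hL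
  have hcount : Countable (Submodule.span ℤ (Set.range b)).toAddSubgroup := by
    change Countable (Submodule.span ℤ (Set.range b))
    infer_instance
  have hcount' : Countable L := hcount
  have hdom := ZSpan.isAddFundamentalDomain' b (volume : Measure (Fin k → ℝ))
  have hvol : volume (ZSpan.fundamentalDomain b) = 1 := by
    rw [ZSpan.fundamentalDomain_pi_basisFun, volume_pi, Measure.pi_pi]
    simp
  have h1 : ∫⁻ z, f z = ∑' g : L, ∫⁻ z in ZSpan.fundamentalDomain b, f (g +ᵥ z) :=
    hdom.lintegral_eq_tsum'' f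
  have h2 : ENNReal.ofReal (Real.exp (-R)) ≤ ∫⁻ z, f z := by
    rw [h1, ← lintegral_tsum (fun g => by
      apply Measurable.aemeasurable
      exact hfm.comp (measurable_const_vadd g))]
    calc ENNReal.ofReal (Real.exp (-R)) = ∫⁻ _z in ZSpan.fundamentalDomain b,
          ENNReal.ofReal (Real.exp (-R)) := by
          rw [setLIntegral_const, hvol, mul_one]
      _ ≤ ∫⁻ z in ZSpan.fundamentalDomain b, ∑' g : L, f (g +ᵥ z) := by
          apply setLIntegral_mono' (ZSpan.fundamentalDomain_measurableSet b)
          intro z hz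
          have hz' : ∀ j, 0 ≤ z j ∧ z j ≤ 1 := by
            intro j
            rw [ZSpan.mem_fundamentalDomain] at hz
            have := hz j
            simp only [hb, Pi.basisFun_repr, Set.mem_Ico] at this
            exact ⟨this.1, this.2.le⟩
          obtain ⟨x, hx⟩ := h z hz'
          have hmem : -(fun j => (x j : ℝ)) ∈ L := by
            apply neg_mem
            rw [hL, Submodule.mem_toAddSubgroup, hb]
            rw [Module.Basis.mem_span_iff_repr_mem]
            intro i
            simp
          have h3 : f ((⟨_, hmem⟩ : L) +ᵥ z) ≤ ∑' g : L, f (g +ᵥ z) :=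
            ENNReal.le_tsum (⟨_, hmem⟩ : L)
          refine le_trans ?_ h3
          apply ENNReal.ofReal_le_ofReal
          apply Real.exp_le_exp.2
          have h4 : ((⟨_, hmem⟩ : L) +ᵥ z) = -((fun j => (x j : ℝ)) - z) := by
            change -(fun j => (x j : ℝ)) + z = _
            abel
          rw [h4]
          have h5 : qf N (-((fun j => (x j : ℝ)) - z)) = qf N ((fun j => (x j : ℝ)) - z) := by
            have := qf_smul N (-1) ((fun j => (x j : ℝ)) - z)
            simpa using this
          rw [h5]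
          linarith
  rw [hf, gauss N hN] at h2
  exact (ENNReal.ofReal_le_ofReal_iff (by positivity)).1 h2

end Q121.DetLB
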