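import Mathlib

set_option autoImplicit false

/-! Maximising the determinant over a convex hull of positive semidefinite matrices. -/

namespace Q121.DetLB

open Matrix Finset

/-- The first order condition. -/
lemma trace_le_of_det_le {k : ℕ} (W : Matrix (Fin k) (Fin k) ℝ)
    (h : ∀ t : ℝ, 0 ≤ t → t ≤ 1 → ((1 - t) • (1 : Matrix (Fin k) (Fin k) ℝ) + t • W).det ≤ 1) :
    W.trace ≤ k := by
  by_contra hcon
  push Not at hcon
  set q := (det (1 + (Polynomial.X : Polynomial ℝ) • (W - 1).map Polynomial.C)).divX.divX with hq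
  have h1 : ∀ t : ℝ, ((1 - t) • (1 : Matrix (Fin k) (Fin k) ℝ) + t • W).det =
      1 + (W.trace - k) * t + q.eval t * t ^ 2 := by
    intro t
    have e1 : (1 - t) • (1 : Matrix (Fin k) (Fin k) ℝ) + t • W = 1 + t • (W - 1) := by
      rw [smul_sub, sub_smul, one_smul]
      abel
    rw [e1, Matrix.det_one_add_smul, Matrix.trace_sub, Matrix.trace_one, Fintype.card_fin]
  have hcont : Filter.Tendsto (fun t : ℝ => (W.trace - k) + q.eval t * t) (nhds 0)
      (nhds ((W.trace - k) + q.eval 0 * 0)) := by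
    apply Continuous.tendsto
    fun_prop
  rw [mul_zero, add_zero] at hcont
  have hpos : 0 < W.trace - k := by linarith
  have hev : ∀ᶠ t : ℝ in nhds 0, 0 < (W.trace - k) + q.eval t * t :=
    hcont.eventually (eventually_gt_nhds hpos)
  obtain ⟨ε, hε, hball⟩ := Metric.eventually_nhds_iff.1 hev
  set t := min (ε / 2) 1 with ht
  have ht0 : 0 < t := by positivity
  have ht1 : t ≤ 1 := min_le_right _ _
  have htε : t < ε := lt_of_le_of_lt (min_le_left _ _) (by linarith)
  have h2 := hball (y := t) (by rw [Real.dist_eq, sub_zero, abs_of_pos ht0]; exact htε)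
  have h3 := h t ht0.le ht1
  rw [h1] at h3
  have h4 : 0 < t * ((W.trace - k) + q.eval t * t) := mul_pos ht0 h2
  nlinarith

/-- There is a matrix of maximal determinant in the convex hull. -/
lemma exists_opt {k : ℕ} {I : Type} [Fintype I] [DecidableEq I]
    (A : I → Matrix (Fin k) (Fin k) ℝ) (hA : ∀ i, (A i).PosSemidef)
    (w0 : I → ℝ) (hw0 : w0 ∈ stdSimplex ℝ I) (hdet0 : 0 < (∑ i, w0 i • A i).det) :
    ∃ w ∈ stdSimplex ℝ I, (∑ i, w i • A i).PosDef ∧
      ∀ i, ((∑ j, w j • A j)⁻¹ * A i).trace ≤ k := by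
  have hcont : Continuous (fun w : I → ℝ => (∑ i, w i • A i).det) := by
    apply Continuous.matrix_det
    fun_prop
  obtain ⟨w, hw, hmax⟩ := (isCompact_stdSimplex ℝ I).exists_isMaxOn ⟨w0, hw0⟩ hcont.continuousOn
  have hpsd : ∀ w : I → ℝ, w ∈ stdSimplex ℝ I → (∑ i, w i • A i).PosSemidef := by
    intro w hw
    apply Matrix.posSemidef_sum
    intro i _
    exact (hA i).smul (hw.1 i)
  set M := ∑ i, w i • A i with hM
  have hdet : 0 < M.det := lt_of_lt_of_le hdet0 (hmax hw0)
  have hPD : M.PosDef := (hpsd w hw).posDef_iff_det_ne_zero.2 hdet.ne'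
  refine ⟨w, hw, hPD, ?_⟩
  intro i
  apply trace_le_of_det_le
  intro t ht0 ht1
  have hw' : (fun j => (1 - t) * w j + t * (if j = i then 1 else 0)) ∈ stdSimplex ℝ I := by
    constructor
    · intro j
      have := hw.1 j
      have h2 : 0 ≤ 1 - t := by linarith
      dsimp only
      split_ifs <;> positivity
    · rw [sum_add_distrib, ← mul_sum, ← mul_sum, hw.2]
      simp
  have h1 := hmax hw'
  have e1 : (∑ j, ((1 - t) * w j + t * (if j = i then 1 else 0)) • A j) =
      (1 - t) • M + t • A i := by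
    simp only [add_smul, sum_add_distrib, mul_smul, ite_smul, one_smul, zero_smul]
    rw [← smul_sum, ← smul_sum]
    simp [hM]
  have h2 : ((1 - t) • M + t • A i).det ≤ M.det := by
    rw [← e1]; exact h1
  have e2 : (1 - t) • (1 : Matrix (Fin k) (Fin k) ℝ) + t • (M⁻¹ * A i) =
      M⁻¹ * ((1 - t) • M + t • A i) := by
    rw [mul_add, Matrix.mul_smul, Matrix.mul_smul, Matrix.nonsing_inv_mul _
      (Ne.isUnit hdet.ne')]
  rw [e2, Matrix.det_mul, Matrix.det_nonsing_inv, Ring.inverse_eq_inv', inv_mul_le_iff₀ hdet,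
    mul_one]
  exact h2

end Q121.DetLB
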