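import Pool.Agent.Q121.DetLB.Gauss
import Pool.Agent.Q121.DetLB.Close
import Pool.Agent.Q121.DetLB.Bound
import Pool.Agent.Q121.DetLB.Opt

set_option autoImplicit false

/-! The core estimate. -/

namespace Q121.DetLB

open Matrix Finset

lemma blocks_psd {k : ℕ} (U Q : Matrix (Fin k) (Fin k) ℝ) (hU : U.PosSemidef)
    (hQ : Q.PosSemidef) : (Matrix.fromBlocks U 0 0 Q).PosSemidef := by
  obtain ⟨G1, hG1⟩ := exists_gram U hU
  obtain ⟨G2, hG2⟩ := exists_gram Q hQ
  have h : Matrix.fromBlocks U 0 0 Q =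
      (Matrix.fromBlocks G1 0 0 G2)ᴴ * Matrix.fromBlocks G1 0 0 G2 := by
    rw [Matrix.conjTranspose_eq_transpose_of_trivial, Matrix.fromBlocks_transpose,
      Matrix.fromBlocks_multiply, hG1, hG2]
    simp
  rw [h]
  exact Matrix.posSemidef_conjTranspose_mul_self _

/-- The upper bound for the determinant of `τ Y + Q`. -/
lemma upper {k : ℕ} (B : Matrix (Fin k) (Fin k) ℝ) (D : ℝ) (hD : 0 ≤ D)
    (hminor : ∀ (m : ℕ) (f g : Fin m → Fin k), |(B.submatrix f g).det| ≤ D ^ m)
    (Y : Matrix (Fin k) (Fin k) ℝ) (hY : Y.PosSemidef) (q : Fin k → ℝ) (hq : ∀ j, 0 ≤ q j)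
    (σ lam : ℝ) (hσ : 0 < σ) (hlam : 0 ≤ lam) (hBY : ∀ i, (B * Y * Bᵀ) i i ≤ lam ^ 2)
    (hqs : ∑ j, q j ≤ k / σ ^ 2) :
    (B * (σ ^ 2 • Y + Matrix.diagonal q) * Bᵀ).det ≤
      ((k * (σ * lam + D / σ)) ^ k / k.factorial) ^ 2 := by
  have hU : (σ ^ 2 • (B * Y * Bᵀ)).PosSemidef := by
    have h1 : (B * Y * Bᵀ).PosSemidef := by
      have := hY.mul_mul_conjTranspose_same B
      rwa [Matrix.conjTranspose_eq_transpose_of_trivial] at this
    exact h1.smul (by positivity)
  have hQ : (Matrix.diagonal q).PosSemidef := Matrix.PosSemidef.diagonal (fun j => hq j)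
  have hS := blocks_psd _ _ hU hQ
  have hmat : B * (σ ^ 2 • Y + Matrix.diagonal q) * Bᵀ =
      Matrix.fromCols (1 : Matrix (Fin k) (Fin k) ℝ) B *
        Matrix.fromBlocks (σ ^ 2 • (B * Y * Bᵀ)) 0 0 (Matrix.diagonal q) *
        (Matrix.fromCols (1 : Matrix (Fin k) (Fin k) ℝ) B)ᵀ := by
    rw [Matrix.transpose_fromCols, Matrix.fromCols_mul_fromBlocks, Matrix.fromCols_mul_fromRows]
    simp only [Matrix.one_mul, Matrix.mul_zero, add_zero, zero_add, Matrix.transpose_one,
      Matrix.mul_one]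
    rw [Matrix.mul_add, Matrix.add_mul, Matrix.mul_smul, Matrix.smul_mul]
  have hb := det_bound (Matrix.fromCols (1 : Matrix (Fin k) (Fin k) ℝ) B)
    (Matrix.fromBlocks (σ ^ 2 • (B * Y * Bᵀ)) 0 0 (Matrix.diagonal q)) hS
    (Sum.elim (fun _ => 1) (fun _ => D)) (by
      intro l
      cases l with
      | inl _ => simp
      | inr _ => simpa using hD) (fun a => minors_one_B B D hminor hD k id a)
  rw [hmat]
  refine hb.trans ?_
  have hsum : ∑ l : Fin k ⊕ Fin k, Sum.elim (fun _ => (1 : ℝ)) (fun _ => D) l *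
      √(Matrix.fromBlocks (σ ^ 2 • (B * Y * Bᵀ)) 0 0 (Matrix.diagonal q) l l) ≤
      k * (σ * lam + D / σ) := by
    rw [Fintype.sum_sum_type]
    simp only [Sum.elim_inl, Sum.elim_inr, Matrix.fromBlocks_apply₁₁, Matrix.fromBlocks_apply₂₂,
      Matrix.diagonal_apply_eq, one_mul, Matrix.smul_apply, smul_eq_mul]
    have h1 : ∑ i : Fin k, √(σ ^ 2 * (B * Y * Bᵀ) i i) ≤ k * (σ * lam) := by
      calc ∑ i : Fin k, √(σ ^ 2 * (B * Y * Bᵀ) i i) ≤ ∑ _i : Fin k, (σ * lam) := by
            apply sum_le_sum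
            intro i _
            rw [show σ * lam = √((σ * lam) ^ 2) by
              rw [Real.sqrt_sq (by positivity)]]
            apply Real.sqrt_le_sqrt
            rw [mul_pow]
            exact mul_le_mul_of_nonneg_left (hBY i) (by positivity)
        _ = k * (σ * lam) := by simp
    have h2 : ∑ j : Fin k, √(q j) ≤ k / σ := by
      have h3 : (∑ j : Fin k, √(q j)) ^ 2 ≤ k * ∑ j : Fin k, (√(q j)) ^ 2 := by
        have := sq_sum_le_card_mul_sum_sq (s := (univ : Finset (Fin k))) (f := fun j => √(q j))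
        simpa using this
      have h4 : ∑ j : Fin k, (√(q j)) ^ 2 = ∑ j, q j :=
        sum_congr rfl (fun j _ => Real.sq_sqrt (hq j))
      rw [h4] at h3
      have h5 : (∑ j : Fin k, √(q j)) ^ 2 ≤ (k / σ) ^ 2 := by
        refine h3.trans ?_
        calc (k : ℝ) * ∑ j, q j ≤ k * (k / σ ^ 2) := by gcongr
          _ = (k / σ) ^ 2 := by ring
      exact le_of_sq_le_sq h5 (by positivity)
    rw [← mul_sum]
    calc _ ≤ k * (σ * lam) + D * (k / σ) := by gcongr
      _ = k * (σ * lam + D / σ) := by ring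
  have h0 : 0 ≤ ∑ l : Fin k ⊕ Fin k, Sum.elim (fun _ => (1 : ℝ)) (fun _ => D) l *
      √(Matrix.fromBlocks (σ ^ 2 • (B * Y * Bᵀ)) 0 0 (Matrix.diagonal q) l l) := by
    apply sum_nonneg
    intro l _
    apply mul_nonneg _ (Real.sqrt_nonneg _)
    cases l with
    | inl _ => simp
    | inr _ => simpa using hD
  gcongr

/-- The Gram matrix of a family of vectors. -/
noncomputable def gram {k d : ℕ} (v : Fin k → EuclideanSpace ℝ (Fin d)) :
    Matrix (Fin k) (Fin k) ℝ :=
  (Matrix.of fun j c => v j c) * (Matrix.of fun j c => v j c)ᵀ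

lemma gram_psd {k d : ℕ} (v : Fin k → EuclideanSpace ℝ (Fin d)) : (gram v).PosSemidef := by
  unfold gram
  rw [← Matrix.conjTranspose_eq_transpose_of_trivial]
  exact Matrix.posSemidef_self_mul_conjTranspose _

lemma trace_gram {k d : ℕ} (N : Matrix (Fin k) (Fin k) ℝ) (v : Fin k → EuclideanSpace ℝ (Fin d)) :
    (N * gram v).trace = ∑ c, qf N (fun j => v j c) := by
  unfold gram
  rw [← Matrix.mul_assoc, Matrix.trace_mul_comm, Matrix.trace]
  refine sum_congr rfl (fun c _ => ?_)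
  rw [Matrix.diag_apply, Matrix.mul_apply]
  simp only [qf, dotProduct, Matrix.mulVec, Matrix.transpose_apply, Matrix.of_apply,
    Matrix.mul_apply]

lemma row_gram {k d : ℕ} (B : Matrix (Fin k) (Fin k) ℝ) (v : Fin k → EuclideanSpace ℝ (Fin d))
    (i : Fin k) : (B * gram v * Bᵀ) i i = ‖∑ j, B i j • v j‖ ^ 2 := by
  have h1 : B * gram v * Bᵀ = (B * (Matrix.of fun j c => v j c)) *
      (B * (Matrix.of fun j c => v j c))ᵀ := by
    unfold gram
    rw [Matrix.transpose_mul, Matrix.mul_assoc, Matrix.mul_assoc, Matrix.mul_assoc]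
  rw [h1, Matrix.mul_apply, EuclideanSpace.norm_sq_eq]
  refine sum_congr rfl (fun c _ => ?_)
  simp only [Matrix.mul_apply, Matrix.transpose_apply, Matrix.of_apply, Real.norm_eq_abs, sq_abs]
  rw [← sq]
  congr 1
  simp

/-- **The core estimate.** -/
theorem core {k : ℕ} (hk : 0 < k) (B : Matrix (Fin k) (Fin k) ℝ) (D : ℝ) (hD : 0 < D)
    (hdet : |B.det| = D ^ k)
    (hminor : ∀ (m : ℕ) (f g : Fin m → Fin k), |(B.submatrix f g).det| ≤ D ^ m)
    (lam : ℝ) (hlam : 0 ≤ lam)
    (hfeas : ∀ S : Finset (Fin k), ∃ (d : ℕ) (v : Fin k → EuclideanSpace ℝ (Fin d)),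
      (∀ j, j ∉ S → v j = 0) ∧ (#S : ℝ) / 2 ≤ ∑ j, ‖v j‖ ^ 2 ∧
      ∀ i, ‖∑ j, B i j • v j‖ ^ 2 ≤ lam ^ 2) :
    D ≤ 4 * (√Real.pi * Real.exp (5 / 2)) ^ 2 * lam := by
  classical
  have hk' : (0 : ℝ) < k := by exact_mod_cast hk
  set c0 := √Real.pi * Real.exp (5 / 2) with hc0
  have hc0pos : 0 < c0 := by
    have := Real.sqrt_pos.2 Real.pi_pos
    positivity
  set σ := 2 * c0 with hσ
  have hσpos : 0 < σ := by positivity
  choose d v hv1 hv2 hv3 using hfeas
  -- the family of matrices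
  set A : Finset (Fin k) ⊕ Fin k → Matrix (Fin k) (Fin k) ℝ := fun s => match s with
    | .inl S => σ ^ 2 • gram (v S)
    | .inr j => Matrix.diagonal (fun i => if i = j then k / σ ^ 2 else 0) with hA
  have hApsd : ∀ s, (A s).PosSemidef := by
    rintro (S | j)
    · exact (gram_psd (v S)).smul (by positivity)
    · apply Matrix.PosSemidef.diagonal
      intro i
      dsimp only
      split_ifs
      · positivity
      · exact le_rfl
  set w0 : Finset (Fin k) ⊕ Fin k → ℝ := Sum.elim (fun _ => 0) (fun _ => 1 / k) with hw0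
  have hw0mem : w0 ∈ stdSimplex ℝ (Finset (Fin k) ⊕ Fin k) := by
    constructor
    · rintro (S | j)
      · simp [hw0]
      · simp [hw0]
    · rw [Fintype.sum_sum_type]
      simp [hw0, hk'.ne']
  have hsum0 : ∑ s, w0 s • A s = (1 / σ ^ 2) • (1 : Matrix (Fin k) (Fin k) ℝ) := by
    rw [Fintype.sum_sum_type]
    simp only [hw0, hA, Sum.elim_inl, Sum.elim_inr, zero_smul, sum_const_zero, zero_add]
    rw [← Matrix.diagonal_one]
    ext i i'
    rw [Matrix.sum_apply]
    by_cases hii : i = i'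
    · subst hii
      simp only [Matrix.smul_apply, Matrix.diagonal_apply_eq, smul_eq_mul, mul_ite, mul_zero,
        Finset.sum_ite_eq, mem_univ, if_true]
      field_simp
    · simp [Matrix.diagonal_apply_ne _ hii, Matrix.one_apply_ne hii]
  have hdet0 : 0 < (∑ s, w0 s • A s).det := by
    rw [hsum0, Matrix.det_smul, Matrix.det_one]
    positivity
  obtain ⟨w, hw, hPD, htr⟩ := exists_opt A hApsd w0 hw0mem hdet0
  set M := ∑ s, w s • A s with hM
  set N := M⁻¹ with hN
  have hNPD : N.PosDef := hPD.inv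
  have hMdet : 0 < M.det := hPD.det_pos
  -- the lower bound
  have hNdiag : ∀ j, N j j ≤ σ ^ 2 := by
    intro j
    have h1 := htr (.inr j)
    have h2 : (N * A (.inr j)).trace = N j j * (k / σ ^ 2) := by
      simp only [hA, Matrix.trace, Matrix.diag_apply, Matrix.mul_diagonal, mul_ite, mul_zero,
        Finset.sum_ite_eq', mem_univ, if_true]
    rw [h2] at h1
    have h3 : N j j * (k / σ ^ 2) = k * (N j j / σ ^ 2) := by ring
    rw [h3] at h1
    have h4 : N j j / σ ^ 2 ≤ 1 := by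
      by_contra hcon
      push Not at hcon
      nlinarith
    rwa [div_le_one (by positivity)] at h4
  have hNgram : ∀ S, ∑ c, qf N (fun j => v S j c) ≤ k / σ ^ 2 := by
    intro S
    have h1 := htr (.inl S)
    have h2 : (N * A (.inl S)).trace = σ ^ 2 * ∑ c, qf N (fun j => v S j c) := by
      simp only [hA]
      rw [Matrix.mul_smul, Matrix.trace_smul, trace_gram, smul_eq_mul]
    rw [h2] at h1
    rw [le_div_iff₀ (by positivity)]
    linarith
  have hclose := close hNPD.posSemidef (σ ^ 2) (by positivity) hNdiag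
    (fun S => ⟨d S, v S, hv1 S, hv2 S, hNgram S⟩)
  have hfold := fold N hNPD (3 / 2 * k) hclose
  have hNdet : N.det = (M.det)⁻¹ := by
    rw [hN, Matrix.det_nonsing_inv, Ring.inverse_eq_inv']
  rw [hNdet, Real.sqrt_inv, div_inv_eq_mul] at hfold
  -- the upper bound
  set Y := ∑ S : Finset (Fin k), w (.inl S) • gram (v S) with hY
  set q : Fin k → ℝ := fun j => w (.inr j) * (k / σ ^ 2) with hq
  have hMdecomp : M = σ ^ 2 • Y + Matrix.diagonal q := by
    rw [hM, Fintype.sum_sum_type, hY, smul_sum]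
    congr 1
    · refine sum_congr rfl (fun S _ => ?_)
      simp only [hA]
      rw [smul_comm]
    · ext i i'
      rw [Matrix.sum_apply]
      by_cases hii : i = i'
      · subst hii
        simp only [hA, hq, Matrix.smul_apply, Matrix.diagonal_apply_eq, smul_eq_mul, mul_ite,
          mul_zero, Finset.sum_ite_eq, mem_univ, if_true]
      · simp [hA, Matrix.diagonal_apply_ne _ hii]
  have hYpsd : Y.PosSemidef := by
    apply Matrix.posSemidef_sum
    intro S _
    exact (gram_psd (v S)).smul (hw.1 _)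
  have hw1 : ∑ S : Finset (Fin k), w (.inl S) + ∑ j : Fin k, w (.inr j) = 1 := by
    rw [← Fintype.sum_sum_type]; exact hw.2
  have hwl : 0 ≤ ∑ S : Finset (Fin k), w (.inl S) := sum_nonneg (fun S _ => hw.1 _)
  have hwr : 0 ≤ ∑ j : Fin k, w (.inr j) := sum_nonneg (fun S _ => hw.1 _)
  have hBY : ∀ i, (B * Y * Bᵀ) i i ≤ lam ^ 2 := by
    intro i
    have h1 : (B * Y * Bᵀ) i i = ∑ S : Finset (Fin k), w (.inl S) * (B * gram (v S) * Bᵀ) i i := by
      rw [hY, Matrix.mul_sum, Matrix.sum_mul, Matrix.sum_apply]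
      refine sum_congr rfl (fun S _ => ?_)
      rw [Matrix.mul_smul, Matrix.smul_mul, Matrix.smul_apply, smul_eq_mul]
    rw [h1]
    calc ∑ S : Finset (Fin k), w (.inl S) * (B * gram (v S) * Bᵀ) i i
        ≤ ∑ S : Finset (Fin k), w (.inl S) * lam ^ 2 := by
          apply sum_le_sum
          intro S _
          rw [row_gram]
          exact mul_le_mul_of_nonneg_left (hv3 S i) (hw.1 _)
      _ = (∑ S : Finset (Fin k), w (.inl S)) * lam ^ 2 := by rw [sum_mul]
      _ ≤ 1 * lam ^ 2 := by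
          apply mul_le_mul_of_nonneg_right _ (sq_nonneg _)
          linarith
      _ = lam ^ 2 := one_mul _
  have hup := upper B D hD.le hminor Y hYpsd q (fun j => mul_nonneg (hw.1 _) (by positivity))
    σ lam hσpos hlam hBY (by
      rw [hq, ← sum_mul]
      calc (∑ j : Fin k, w (.inr j)) * (k / σ ^ 2) ≤ 1 * (k / σ ^ 2) := by
            apply mul_le_mul_of_nonneg_right _ (by positivity)
            linarith
        _ = k / σ ^ 2 := one_mul _)
  rw [← hMdecomp, Matrix.det_mul, Matrix.det_mul, Matrix.det_transpose] at hup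
  -- combine
  set s := σ * lam + D / σ with hs
  have hspos : 0 < s := by positivity
  have h1 : (k * s) ^ k / k.factorial ≤ (s * Real.exp 1) ^ k := by
    have h2 := Real.pow_div_factorial_le_exp (x := (k : ℝ)) hk'.le k
    rw [mul_pow, mul_pow, ← Real.exp_nat_mul, mul_one]
    calc (k : ℝ) ^ k * s ^ k / k.factorial = s ^ k * ((k : ℝ) ^ k / k.factorial) := by ring
      _ ≤ s ^ k * Real.exp k := by gcongr
  have h2 : D ^ k * √M.det ≤ (s * Real.exp 1) ^ k := by
    have h3 : (D ^ k * √M.det) ^ 2 ≤ ((s * Real.exp 1) ^ k) ^ 2 := by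
      have h4 : (D ^ k * √M.det) ^ 2 = B.det * M.det * B.det := by
        rw [mul_pow, Real.sq_sqrt hMdet.le, ← hdet, sq_abs]
        ring
      rw [h4]
      refine hup.trans ?_
      gcongr
    exact le_of_sq_le_sq h3 (by positivity)
  have h3 : (Real.exp (-(3 / 2))) ^ k ≤ √Real.pi ^ k * √M.det := by
    have : (Real.exp (-(3 / 2))) ^ k = Real.exp (-(3 / 2 * k)) := by
      rw [← Real.exp_nat_mul]
      congr 1
      ring
    rw [this]
    exact hfold
  have h4 : D ^ k ≤ (c0 * s) ^ k := by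
    have h5 : D ^ k * (Real.exp (-(3 / 2))) ^ k ≤ √Real.pi ^ k * (s * Real.exp 1) ^ k := by
      calc D ^ k * (Real.exp (-(3 / 2))) ^ k ≤ D ^ k * (√Real.pi ^ k * √M.det) := by gcongr
        _ = √Real.pi ^ k * (D ^ k * √M.det) := by ring
        _ ≤ √Real.pi ^ k * (s * Real.exp 1) ^ k := by gcongr
    have h6 : Real.exp (-(3 / 2)) * Real.exp (3 / 2) = 1 := by
      rw [← Real.exp_add]; norm_num
    have h7 : Real.exp (5 / 2) = Real.exp 1 * Real.exp (3 / 2) := by
      rw [← Real.exp_add]; norm_num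
    calc D ^ k = D ^ k * (Real.exp (-(3 / 2))) ^ k * Real.exp (3 / 2) ^ k := by
          rw [mul_assoc, ← mul_pow, h6, one_pow, mul_one]
      _ ≤ √Real.pi ^ k * (s * Real.exp 1) ^ k * Real.exp (3 / 2) ^ k := by gcongr
      _ = (c0 * s) ^ k := by
          rw [hc0, h7, ← mul_pow, ← mul_pow]
          congr 1
          ring
  have h5 : D ≤ c0 * s := le_of_pow_le_pow_left₀ hk.ne' (by positivity) h4
  rw [hs, hσ] at h5
  have h6 : c0 * (2 * c0 * lam + D / (2 * c0)) = 2 * c0 ^ 2 * lam + D / 2 := by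
    field_simp
  rw [h6] at h5
  linarith

end Q121.DetLB
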